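import Pool.Agent.Lib.MP_d164ca_an.Extra

/-!
Meromorphic functions generating multiplier sequences: complete classification in the class of the
quotients of functions of exponential type, of vertical type less than `π / 2` (less than `π` if
`F k ≥ 0`); these functions are `σ^z G`, `G` entire of exponential type 0; rational functions.
-/

namespace Pool.Agent.Results.MP_d164ca_an.CarlsonClass

open Pool.Agent.MPd164ca

/-- `F = φ / ψ` is meromorphic, without pole and real at the nonnegative integers; on the right half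
plane `F = u / v` with `u`, `v` of exponential type, of type at most `τ` on the imaginary axis.
Second part: rational functions `F = p / q`. -/
theorem result :
    (∀ (F φ ψ u v : ℂ → ℂ) (A K τ : ℝ),
      Differentiable ℂ φ → Differentiable ℂ ψ → (∃ z, ψ z ≠ 0) →
      (∀ z, ψ z ≠ 0 → F z = φ z / ψ z) →
      (∀ k : ℕ, AnalyticAt ℂ F k) → (∀ k : ℕ, (F k).im = 0) →
      DiffContOnCl ℂ u {z | 0 < z.re} → DiffContOnCl ℂ v {z | 0 < z.re} →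
      (∃ z : ℂ, 0 < z.re ∧ v z ≠ 0) →
      (∀ z : ℂ, 0 < z.re → ψ z ≠ 0 → F z * v z = u z) →
      (∀ z : ℂ, 0 ≤ z.re → ‖u z‖ ≤ A * Real.exp (K * ‖z‖)) →
      (∀ z : ℂ, 0 ≤ z.re → ‖v z‖ ≤ A * Real.exp (K * ‖z‖)) →
      (∀ y : ℝ, ‖u (y * Complex.I)‖ ≤ A * Real.exp (τ * |y|)) →
      (∀ y : ℝ, ‖v (y * Complex.I)‖ ≤ A * Real.exp (τ * |y|)) →
      (τ < Real.pi / 2 ∨ (τ < Real.pi ∧ ∀ k : ℕ, 0 ≤ (F k).re)) →
      ((¬ ∀ a : ℝ, ∃ M : ℝ, ∀ k : ℕ, ‖F k‖ ≤ M * Real.exp (-a * k)) ∨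
        (Differentiable ℂ u ∧ ∀ z : ℂ, ‖u z‖ ≤ A * Real.exp (K * ‖z‖))) →
      (IsMultiplierSequence (fun k => (F k).re) ↔
        ∃ (c σ : ℝ) (m : ℕ) (t b : ℕ → ℝ), 0 < σ ∧ (∀ j, 0 ≤ t j) ∧ Summable t ∧
          (∀ z : ℂ, HasSum (fun j => (b j : ℂ) * z ^ j) (z ^ m * ∏' j, (1 + (t j : ℂ) * z))) ∧
          ∀ z, ψ z ≠ 0 →
            HasSum (fun j : ℕ =>
              (c : ℂ) * (σ : ℂ) ^ z * ((b j : ℂ) * ∏ i ∈ Finset.range j, (z - i))) (F z)) ∧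
      (IsMultiplierSequence (fun k => (F k).re) →
        ∃ (σ : ℝ) (G : ℂ → ℂ), 0 < σ ∧ Differentiable ℂ G ∧
          (∀ ε : ℝ, 0 < ε → ∃ M : ℝ, ∀ z : ℂ, ‖G z‖ ≤ M * Real.exp (ε * ‖z‖)) ∧
          ∀ z, ψ z ≠ 0 → F z = (σ : ℂ) ^ z * G z)) ∧
    (∀ (F : ℂ → ℂ) (p q : Polynomial ℂ), q ≠ 0 → (∀ z, q.eval z ≠ 0 → F z = p.eval z / q.eval z) →
      (∀ k : ℕ, AnalyticAt ℂ F k) → (∀ k : ℕ, (F k).im = 0) →
      IsMultiplierSequence (fun k => (F k).re) →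
      ∃ s : Polynomial ℂ, ∀ z, q.eval z ≠ 0 → F z = s.eval z) := by
  refine ⟨fun F φ ψ u v A K τ hφ hψ hψ0 hF hFk hreal hu hv hv0 huv huK hvK huI hvI hτ hdec =>
    ⟨⟨fun h => necessity hφ hψ hψ0 hF hFk hreal hu hv hv0 huv huK hvK huI hvI hτ hdec h,
      fun ⟨_, _, _, _, _, hσ, ht, hts, hb, hFE⟩ => sufficiency hψ hψ0 hFk hσ ht hts hb hFE⟩,
      fun h => ?_⟩, fun F p q hq hF hFk hreal hms => rational_form hq hF hFk hreal hms⟩
  obtain ⟨c, σ, m, t, b, hσ, ht, hts, hb, hFE⟩ :=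
    necessity hφ hψ hψ0 hF hFk hreal hu hv hv0 huv huK hvK huI hvI hτ hdec h
  obtain ⟨G, hG1, hG2, hG3⟩ := growth_form ht hts hb hFE
  exact ⟨σ, G, hσ, hG1, hG2, hG3⟩

end Pool.Agent.Results.MP_d164ca_an.CarlsonClass
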