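import Pool.Agent.Lib.MP_d164ca_an.LS.Asm

/-!
Multiplier sequences generated by the meromorphic functions `F = R e^q`, `R` rational and `q` a
polynomial: complete classification at large scales.
-/

namespace Pool.Agent.Results.MP_d164ca_an.LargeScales

open Polynomial Pool.Agent.MPd164ca

/-- Let `u ≠ 0`, `v`, `q` be real polynomials, `v` without zeros on `[0, ∞)`, and
`F x = u x / v x * exp (q x)`. The following are equivalent: `(F (c k))_k` is a multiplier sequence
for some `c > 0`; it is one for all large `c`; `u 0 * v 0` does not have the sign opposite to that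
of the product of the leading coefficients, and either `q` has degree at least two and negative
leading coefficient, or `q` has degree at most one and `v` divides `u`. -/
theorem result {u v : ℝ[X]} (q : ℝ[X]) (hu : u ≠ 0) (hv : ∀ x : ℝ, 0 ≤ x → v.eval x ≠ 0) :
    List.TFAE [
      ∃ c : ℝ, 0 < c ∧ IsMultiplierSequence
        (fun k : ℕ => u.eval (c * k) / v.eval (c * k) * Real.exp (q.eval (c * k))),
      ∃ C : ℝ, ∀ c : ℝ, C ≤ c → IsMultiplierSequence
        (fun k : ℕ => u.eval (c * k) / v.eval (c * k) * Real.exp (q.eval (c * k))),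
      0 ≤ u.eval 0 * v.eval 0 * (u.leadingCoeff * v.leadingCoeff) ∧
        ((2 ≤ q.natDegree ∧ q.leadingCoeff < 0) ∨ (q.natDegree ≤ 1 ∧ v ∣ u))] := by
  tfae_have 1 → 3 := fun ⟨_, hc, h⟩ => ls_necessity hu hv hc h
  tfae_have 3 → 2 := fun ⟨h0, h⟩ => ls_sufficiency hu hv h0 h
  tfae_have 2 → 1 := fun ⟨C, h⟩ =>
    ⟨max C 1, lt_of_lt_of_le one_pos (le_max_right _ _), h _ (le_max_left _ _)⟩
  tfae_finish

end Pool.Agent.Results.MP_d164ca_an.LargeScales
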