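import Pool.Agent.Lib.MP_d164ca_an.SR.Main

/-!
# A criterion for the large shifts of one function

For a real function `F`, positive for large `x`, let `r` in `[0, ∞]` be the limit of
`F (x - 1) F (x + 1) / F (x) ^ 2` as `x → ∞`. In the case `r = 1` the function is assumed to be
`(u / v) e^(a x + b)` on `[0, ∞)`, with real polynomials `u ≠ 0` and `v` without zeros there.
The sequence `F (s + k)`, `k ≥ 0`, is a multiplier sequence for one shift `s ≥ 0` if and only if
it is one for all large `s`, and this holds if and only if `r < 1`, or `r = 1` and `v ∣ u`.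
-/

namespace Pool.Agent.Results.MP_d164ca_an.LargeShifts

open Polynomial Filter Pool.Agent.MPd164ca

/-- Let `F` be positive for large `x`, with `F (x - 1) F (x + 1) / F (x) ^ 2 → r ∈ [0, ∞]`, and
`F = (u / v) e^(a x + b)` on `[0, ∞)` when `r = 1`. Then the following are equivalent: some shift
`F (s + k)`, `s ≥ 0`, is a multiplier sequence; all shifts with large `s` are; `r < 1`, or `r = 1`
and `v ∣ u`. -/
theorem result {F : ℝ → ℝ} {r : EReal} {u v : ℝ[X]} {a b : ℝ}
    (hF : ∀ᶠ x in atTop, 0 < F x)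
    (hr : Tendsto (fun x : ℝ => ((F (x - 1) * F (x + 1) / F x ^ 2 : ℝ) : EReal)) atTop (nhds r))
    (hu : u ≠ 0) (hv : ∀ x : ℝ, 0 ≤ x → v.eval x ≠ 0)
    (huv : r = 1 → ∀ x : ℝ, 0 ≤ x → F x = u.eval x / v.eval x * Real.exp (a * x + b)) :
    List.TFAE [
      ∃ s : ℝ, 0 ≤ s ∧ IsMultiplierSequence (fun k : ℕ => F (s + k)),
      ∃ S : ℝ, ∀ s : ℝ, S ≤ s → IsMultiplierSequence (fun k : ℕ => F (s + k)),
      r < 1 ∨ (r = 1 ∧ v ∣ u)] := by
  tfae_have 1 → 3 := by
    rintro ⟨s, hs, h⟩
    exact sr_necessity hF hr hu hv huv hs h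
  tfae_have 3 → 2 := by
    intro h
    exact sr_sufficiency hF hr hv huv h
  tfae_have 2 → 1 := by
    rintro ⟨S, hS⟩
    exact ⟨max S 0, le_max_right _ _, hS _ (le_max_left _ _)⟩
  tfae_finish

end Pool.Agent.Results.MP_d164ca_an.LargeShifts
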