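import Pool.Agent.Lib.MP_d164ca_an.SSMain

/-!
Meromorphic functions generating multiplier sequences at small scales: complete classification.
-/

namespace Pool.Agent.Results.MP_d164ca_an.SmallScales

open Pool.Agent.MPd164ca

/-- `F = φ / ψ` is meromorphic, without pole and real on `[0, ∞)`. The following are equivalent:
`(F (c k))_k` is a multiplier sequence for arbitrarily small `c > 0`; it is one for all `c > 0`;
`F z = C z^m exp (-a z² + b z) ∏ (1 + t_j z) exp (-t_j z)` with `a ≥ 0`, `t_j ≥ 0`, `∑ t_j² < ∞`. -/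
theorem result {F φ ψ : ℂ → ℂ} (hφ : Differentiable ℂ φ) (hψ : Differentiable ℂ ψ)
    (hψ0 : ∃ z, ψ z ≠ 0) (hF : ∀ z, ψ z ≠ 0 → F z = φ z / ψ z)
    (hFan : ∀ x : ℝ, 0 ≤ x → AnalyticAt ℂ F x) (hreal : ∀ x : ℝ, 0 ≤ x → (F x).im = 0) :
    List.TFAE [
      ∀ ε : ℝ, 0 < ε → ∃ c : ℝ, 0 < c ∧ c < ε ∧
        IsMultiplierSequence (fun k => (F ((c * k : ℝ) : ℂ)).re),
      ∀ c : ℝ, 0 < c → IsMultiplierSequence (fun k => (F ((c * k : ℝ) : ℂ)).re),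
      ∃ (C a b : ℝ) (m : ℕ) (t : ℕ → ℝ), 0 ≤ a ∧ (∀ j, 0 ≤ t j) ∧ (Summable fun j => t j ^ 2) ∧
        ∀ z : ℂ, ψ z ≠ 0 → F z = C * z ^ m * (Complex.exp (-a * z ^ 2 + b * z) *
          ∏' j, (1 + (t j : ℂ) * z) * Complex.exp (-((t j : ℂ) * z)))] := by
  tfae_have 1 → 3 := fun h => ss_necessity hφ hψ hψ0 hF hFan hreal h
  tfae_have 3 → 2 := fun ⟨_, _, _, _, _, ha, ht, hts, hFE⟩ _ hc =>
    ss_sufficiency hψ hψ0 hFan hreal ha ht hts hFE hc
  tfae_have 2 → 1 := fun h ε hε => ⟨ε / 2, half_pos hε, half_lt_self hε, h _ (half_pos hε)⟩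
  tfae_finish

end Pool.Agent.Results.MP_d164ca_an.SmallScales
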